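import Pool.Agent.FRE.Stmts

/-!
Squad FRE (MP_1fc801_co), row MOD: Ruzsa's model lemma.
-/

set_option autoImplicit false

namespace Pool.Agent.FRE.H75

theorem pigeon {α : Type} (A : Finset α) (c : α → ℕ) (hc : ∀ a ∈ A, c a < 8) :
    ∃ i, A.card ≤ 8 * (A.filter fun a => c a = i).card := by
  by_contra hcon
  have hcon' : ∀ i, 8 * (A.filter fun a => c a = i).card < A.card := by
    intro i
    by_contra h
    exact hcon ⟨i, not_lt.1 h⟩
  have h1 : A.card = ∑ i ∈ Finset.range 8, (A.filter fun a => c a = i).card :=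
    Finset.card_eq_sum_card_fiberwise fun a ha => Finset.mem_coe.2 (Finset.mem_range.2 (hc a ha))
  have h2 : ∑ i ∈ Finset.range 8, 8 * (A.filter fun a => c a = i).card <
      ∑ i ∈ Finset.range 8, A.card :=
    Finset.sum_lt_sum_of_nonempty ⟨0, by simp⟩ fun i _ => hcon' i
  rw [← Finset.mul_sum, ← h1, Finset.sum_const, Finset.card_range, smul_eq_mul] at h2
  exact lt_irrefl _ h2

theorem mod (h1 : DilStmt) : ModStmt := by
  intro A S N hSN hS
  obtain ⟨θ, hθ⟩ := h1 S N hSN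
  set t : ℂ → ℝ := fun z => (N : ℝ) * θ z with ht
  obtain ⟨i, hi⟩ := pigeon A (fun z => ⌊8 * Int.fract (t z)⌋₊) (by
    intro a _
    have h2 := Int.fract_lt_one (t a)
    have h3 := Int.fract_nonneg (t a)
    rw [Nat.floor_lt (by linarith)]
    push_cast
    linarith)
  refine ⟨A.filter (fun z => ⌊8 * Int.fract (t z)⌋₊ = i), fun z => ((⌊t z⌋ : ℤ) : ZMod N),
    Finset.filter_subset _ _, hi, ?_⟩
  intro x y hx hy
  have hxA : ∀ j, x j ∈ A := fun j => (Finset.mem_filter.1 (hx j)).1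
  have hyA : ∀ j, y j ∈ A := fun j => (Finset.mem_filter.1 (hy j)).1
  have hz := hS x y hxA hyA
  have hfr : ∀ z : ℂ, ⌊8 * Int.fract (t z)⌋₊ = i →
      (i : ℝ) / 8 ≤ Int.fract (t z) ∧ Int.fract (t z) < ((i : ℝ) + 1) / 8 := by
    intro z hz
    have h3 := Int.fract_nonneg (t z)
    have h4 := (Nat.floor_eq_iff (by linarith : 0 ≤ 8 * Int.fract (t z))).1 hz
    constructor
    · linarith [h4.1]
    · linarith [h4.2]
  have hsum : ∀ u : Fin 8 → ℂ, (∀ j, ⌊8 * Int.fract (t (u j))⌋₊ = i) →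
      (i : ℝ) ≤ ∑ j, Int.fract (t (u j)) ∧ ∑ j, Int.fract (t (u j)) < (i : ℝ) + 1 := by
    intro u hu
    constructor
    · calc (i : ℝ) = ∑ j : Fin 8, (i : ℝ) / 8 := by
            rw [Finset.sum_const, Finset.card_univ, Fintype.card_fin, nsmul_eq_mul]
            push_cast
            ring
        _ ≤ ∑ j, Int.fract (t (u j)) := Finset.sum_le_sum fun j _ => (hfr _ (hu j)).1
    · calc ∑ j, Int.fract (t (u j)) < ∑ j : Fin 8, ((i : ℝ) + 1) / 8 :=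
            Finset.sum_lt_sum_of_nonempty ⟨0, Finset.mem_univ _⟩ fun j _ => (hfr _ (hu j)).2
        _ = (i : ℝ) + 1 := by
            rw [Finset.sum_const, Finset.card_univ, Fintype.card_fin, nsmul_eq_mul]
            push_cast
            ring
  have h5 := hsum x fun j => (Finset.mem_filter.1 (hx j)).2
  have h6 := hsum y fun j => (Finset.mem_filter.1 (hy j)).2
  have hid : ∀ u : Fin 8 → ℂ,
      ∑ j, Int.fract (t (u j)) = (N : ℝ) * θ (∑ j, u j) - ((∑ j, ⌊t (u j)⌋ : ℤ) : ℝ) := by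
    intro u
    have e1 : ∀ j, Int.fract (t (u j)) = t (u j) - (⌊t (u j)⌋ : ℝ) := fun j => rfl
    simp only [e1]
    rw [Finset.sum_sub_distrib, map_sum, Finset.mul_sum]
    push_cast
    rfl
  rw [hid x] at h5
  rw [hid y] at h6
  have hθz : θ (∑ j, x j - ∑ j, y j) = θ (∑ j, x j) - θ (∑ j, y j) := map_sub θ _ _
  rw [← Int.cast_sum, ← Int.cast_sum]
  constructor
  · intro h
    rw [ZMod.intCast_eq_intCast_iff_dvd_sub] at h
    obtain ⟨m, hm⟩ := h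
    by_contra hne
    have hne' : ∑ j, x j - ∑ j, y j ≠ 0 := sub_ne_zero.2 hne
    have h7 := hθ _ hz hne' (-m)
    have h8 : ((∑ j, ⌊t (y j)⌋ : ℤ) : ℝ) - ((∑ j, ⌊t (x j)⌋ : ℤ) : ℝ) = (N : ℝ) * m := by
      exact_mod_cast hm
    have h9 : (N : ℝ) * |θ (∑ j, x j - ∑ j, y j) - ((-m : ℤ) : ℝ)| < 1 := by
      have h10 : (N : ℝ) * |θ (∑ j, x j - ∑ j, y j) - ((-m : ℤ) : ℝ)| =
          |(N : ℝ) * (θ (∑ j, x j - ∑ j, y j) - ((-m : ℤ) : ℝ))| := by
        rw [abs_mul, abs_of_nonneg (Nat.cast_nonneg N : (0 : ℝ) ≤ (N : ℝ))]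
      rw [h10, abs_lt, hθz]
      push_cast
      constructor
      · linarith [h5.1, h6.2]
      · linarith [h5.2, h6.1]
    linarith
  · intro h
    rw [h] at h5
    have h7 : (∑ j, ⌊t (x j)⌋ : ℤ) = ∑ j, ⌊t (y j)⌋ := by
      have h8 : ((∑ j, ⌊t (x j)⌋ : ℤ) : ℝ) < ((∑ j, ⌊t (y j)⌋ : ℤ) : ℝ) + 1 := by
        linarith [h5.1, h6.2]
      have h9 : ((∑ j, ⌊t (y j)⌋ : ℤ) : ℝ) < ((∑ j, ⌊t (x j)⌋ : ℤ) : ℝ) + 1 := by
        linarith [h5.2, h6.1]
      have h10 : (∑ j, ⌊t (x j)⌋ : ℤ) < ∑ j, ⌊t (y j)⌋ + 1 := by exact_mod_cast h8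
      have h11 : (∑ j, ⌊t (y j)⌋ : ℤ) < ∑ j, ⌊t (x j)⌋ + 1 := by exact_mod_cast h9
      omega
    rw [h7]

end Pool.Agent.FRE.H75
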